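import Pool.Agent.H394R3.Cond

set_option autoImplicit false

/-!
# The optimal exponent `p⁎(n ^ 2)` is zero

We work with the uniform real random access machine of `Pool.Agent.H394R3.Lang` (exact arithmetic,
every arithmetic operation and comparison costs one step). One fixed deterministic program solves
every invertible system `A x = b` to accuracy `ε` in
`O(n ^ 2 (log n + log (1 / ε) + log κ(A)) ^ 3)` steps, and `(log κ) ^ 3` is bounded by
`κ̄ₚ` up to factors `log ^ 3 n` and constants that depend on `p` only. The program works with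
matrices whose entries are rounded to multiples of a small number, and it multiplies two such
matrices with `O(n ^ 2)` operations: the rows are packed into single real numbers, and the entries
of the product are unpacked with comparisons. It inverts the matrix by an iteration which is
corrected by rounding.
-/

namespace Pool.Agent.Results.MP_2781e4_lc.PStarZero

open Matrix MeasureTheory Pool.Agent.H394R3
open scoped Matrix.Norms.L2Operator

/-- The input: `A`, `b`, `ε` in the arrays 0, 1, 2, a table of numbers from `[0, 1]` in the arrays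
from number 50 on, and zeros in the other arrays. -/
noncomputable def input {n : ℕ} (A : Matrix (Fin n) (Fin n) ℝ) (b : Fin n → ℝ) (ε : ℝ)
    (R : ℕ × ℕ × ℕ → unitInterval) : Mem :=
  fun a i j =>
    if a = 0 then (if h : i < n ∧ j < n then A ⟨i, h.1⟩ ⟨j, h.2⟩ else 0)
    else if a = 1 then (if h : i < n ∧ j = 0 then b ⟨i, h.1⟩ else 0)
    else if a = 2 then (if i = 0 ∧ j = 0 then ε else 0)
    else if 50 ≤ a then (R (a, i, j) : ℝ)
    else 0

/-- With the random table `R`, the program `c` solves the system `A x = b` to accuracy `ε`, with at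
most `C (1 + log n + log (1 / ε)) ^ d * (n ^ 2 * κ̄ₚ(A))` steps. -/
def Good (c : Cmd) (C : ℝ) (d : ℕ) (p : ℝ) {n : ℕ} (A : Matrix (Fin n) (Fin n) ℝ)
    (b : Fin n → ℝ) (ε : ℝ) (R : ℕ × ℕ × ℕ → unitInterval) : Prop :=
  ∃ σ t, Exec n 0 c (input A b ε R) σ t ∧
    nrm (outputVec n σ - A⁻¹ *ᵥ b) ≤ ε * nrm (A⁻¹ *ᵥ b) ∧
    (t : ℝ) ≤ C * (1 + Real.log n + Real.log (1 / ε)) ^ d * ((n : ℝ) ^ 2 * kappaBar p A)

/-- The uniform distribution on tables: all entries are independent and uniform in `[0, 1]`. -/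
noncomputable def unif : Measure (ℕ × ℕ × ℕ → unitInterval) :=
  Measure.infinitePi fun _ => (volume : Measure unitInterval)

/-- `p` is achievable (by a randomized program, with success probability at least `2 / 3`). -/
def Achievable (p : ℝ) : Prop :=
  ∃ (c : Cmd) (C : ℝ) (d : ℕ), ∀ n : ℕ, 1 ≤ n → ∀ A : Matrix (Fin n) (Fin n) ℝ, IsUnit A.det →
    ∀ (b : Fin n → ℝ) (ε : ℝ), 0 < ε → ε < 1 → 2 / 3 ≤ unif {R | Good c C d p A b ε R}

/-- `p` is achievable by a deterministic program. -/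
def AchievableDet (p : ℝ) : Prop :=
  ∃ (c : Cmd) (C : ℝ) (d : ℕ), ∀ n : ℕ, 1 ≤ n → ∀ A : Matrix (Fin n) (Fin n) ℝ, IsUnit A.det →
    ∀ (b : Fin n → ℝ) (ε : ℝ), 0 < ε → ε < 1 → ∀ R, Good c C d p A b ε R

/-- `p⁎(n ^ 2)` -/
noncomputable def pStar : ℝ := sInf {p | 0 < p ∧ Achievable p}

theorem log_cube {x : ℝ} (hx : 1 ≤ x) : (1 + Real.log x) ^ 3 ≤ 27 * x := by
  set y := x ^ (1 / 3 : ℝ) with hy
  have hy3 : y ^ 3 = x := by
    rw [hy, ← Real.rpow_natCast, ← Real.rpow_mul (by linarith)]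
    norm_num
  have hy1 : 1 ≤ y := Real.one_le_rpow hx (by norm_num)
  have h1 : Real.log x = 3 * Real.log y := by
    rw [← hy3, Real.log_pow]; norm_num
  have h2 : Real.log y ≤ y - 1 := Real.log_le_sub_one_of_pos (by linarith)
  have h3 : 0 ≤ Real.log x := Real.log_nonneg hx
  calc (1 + Real.log x) ^ 3 ≤ (3 * y) ^ 3 := pow_le_pow_left₀ (by linarith) (by linarith) 3
    _ = 27 * x := by rw [mul_pow, hy3]; norm_num

theorem det_of_pos {p : ℝ} (hp : 0 < p) : AchievableDet p := by
  refine ⟨cSolve, 10 ^ 10 * (27 * (1 + 1 / p) ^ 3), 3, ?_⟩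
  intro n hn A hA b ε hε hε1 R
  have hn0 : (1 : ℝ) ≤ n := by exact_mod_cast hn
  have hkb : 1 ≤ kappaBar p A := one_le_kappaBar hp hn hA
  have hnp : 1 ≤ (n : ℝ) ^ (1 / p) := Real.one_le_rpow hn0 (by positivity)
  have hκ : 1 ≤ (n : ℝ) ^ (1 / p) * kappaBar p A := by nlinarith
  have hκA : ‖A‖ * ‖A⁻¹‖ ≤ (n : ℝ) ^ (1 / p) * kappaBar p A := by
    refine le_trans ?_ (kappa_le hp hn hA)
    rw [div_eq_mul_one_div]
    exact mul_le_mul (norm_le_sv A) (norm_inv_le hn hA) (norm_nonneg _) (sv_nonneg A 0)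
  obtain ⟨σ, t, h1, -, h3, h4⟩ := solve_log_gen hn A hA b hε hε1 hκ hκA (input A b ε R)
    (by ext i j; simp [toM, input]) (by intro i; simp [input]) (by simp [input])
  refine ⟨σ, t, h1, h3, h4.trans ?_⟩
  have hlog : Real.log ((n : ℝ) ^ (1 / p) * kappaBar p A) =
      1 / p * Real.log n + Real.log (kappaBar p A) := by
    rw [Real.log_mul (by positivity) (by positivity), Real.log_rpow (by linarith)]
  have hl1 : 0 ≤ Real.log n := Real.log_nonneg hn0
  have hl2 : 0 ≤ Real.log (1 / ε) := Real.log_nonneg (by rw [le_div_iff₀ hε]; linarith)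
  have hl3 : 0 ≤ Real.log (kappaBar p A) := Real.log_nonneg hkb
  have hp' : 0 < 1 / p := by positivity
  set z := 1 + Real.log n + Real.log (1 / ε) with hz
  have hz1 : 1 ≤ z := by linarith
  set l := Real.log (kappaBar p A) with hl
  have h5 : z + Real.log ((n : ℝ) ^ (1 / p) * kappaBar p A) ≤ (1 + 1 / p) * z * (1 + l) := by
    rw [hlog]
    have e1 : 1 / p * Real.log n ≤ 1 / p * z := mul_le_mul_of_nonneg_left (by linarith) hp'.le
    have e2 : l ≤ z * l := le_mul_of_one_le_left hl3 hz1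
    have e3 : 0 ≤ 1 / p * (z * l) := by positivity
    calc z + (1 / p * Real.log n + l) ≤ z + (1 / p * z + z * l) := by linarith
      _ ≤ z + (1 / p * z + z * l) + 1 / p * (z * l) := by linarith
      _ = (1 + 1 / p) * z * (1 + l) := by ring
  have h6 : 0 ≤ z + Real.log ((n : ℝ) ^ (1 / p) * kappaBar p A) :=
    add_nonneg (by linarith) (Real.log_nonneg hκ)
  have h7 : (z + Real.log ((n : ℝ) ^ (1 / p) * kappaBar p A)) ^ 3 ≤
      (1 + 1 / p) ^ 3 * z ^ 3 * (27 * kappaBar p A) := by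
    calc (z + Real.log ((n : ℝ) ^ (1 / p) * kappaBar p A)) ^ 3
        ≤ ((1 + 1 / p) * z * (1 + l)) ^ 3 := pow_le_pow_left₀ h6 h5 3
      _ = (1 + 1 / p) ^ 3 * z ^ 3 * (1 + l) ^ 3 := by ring
      _ ≤ (1 + 1 / p) ^ 3 * z ^ 3 * (27 * kappaBar p A) :=
          mul_le_mul_of_nonneg_left (log_cube hkb) (by positivity)
  calc 10 ^ 10 * ((n : ℝ) ^ 2 * (1 + Real.log n + Real.log (1 / ε) +
        Real.log ((n : ℝ) ^ (1 / p) * kappaBar p A)) ^ 3)
      ≤ 10 ^ 10 * ((n : ℝ) ^ 2 * ((1 + 1 / p) ^ 3 * z ^ 3 * (27 * kappaBar p A))) := by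
        gcongr
    _ = 10 ^ 10 * (27 * (1 + 1 / p) ^ 3) * z ^ 3 * ((n : ℝ) ^ 2 * kappaBar p A) := by ring

/-- Every `p > 0` is achievable, even by a deterministic program, and therefore
`p⁎(n ^ 2) = 0`. -/
theorem result : (∀ p : ℝ, 0 < p → AchievableDet p) ∧ pStar = 0 := by
  refine ⟨fun p hp => det_of_pos hp, ?_⟩
  have hach : ∀ p : ℝ, 0 < p → Achievable p := by
    intro p hp
    obtain ⟨c, C, d, h⟩ := det_of_pos hp
    refine ⟨c, C, d, fun n hn A hA b ε hε hε1 => ?_⟩
    have h1 : {R | Good c C d p A b ε R} = Set.univ :=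
      Set.eq_univ_of_forall fun R => h n hn A hA b ε hε hε1 R
    rw [h1]
    have h2 : unif Set.univ = 1 := by
      unfold unif
      exact measure_univ
    rw [h2]
    exact ENNReal.div_le_of_le_mul (by norm_num)
  unfold pStar
  have hset : {p : ℝ | 0 < p ∧ Achievable p} = Set.Ioi 0 := by
    ext p
    exact ⟨fun h => h.1, fun h => ⟨h, hach p h⟩⟩
  rw [hset, csInf_Ioi]

end Pool.Agent.Results.MP_2781e4_lc.PStarZero
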